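import Pool.Agent.Y142.ZO.Stm
import Pool.Agent.W528.Ord.Dens
import Pool.Agent.W401.Cheb.Frob

/-!
# Frobenius elements are dense
-/

set_option autoImplicit false

namespace Pool.Agent.Y405.ZO

open Filter Topology NumberField IsDedekindDomain
open Pool.Agent.W401.Cheb (dens IsFrob)

theorem frob_core (K : Type) [Field K] [NumberField K] (O : Set (Pool.Agent.W401.Cheb.GK K))
    (hO : IsOpen O) (hne : O.Nonempty) (T : Set (HeightOneSpectrum (𝓞 K))) (hT : T.Finite) :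
    ∃ v, v ∉ T ∧ ∃ σ : Pool.Agent.W401.Cheb.GK K, IsFrob v σ ∧ σ⁻¹ ∈ O := by
  classical
  obtain ⟨σ₀, hσ₀⟩ := hne
  set τ₀ : Pool.Agent.W401.Cheb.GK K := σ₀⁻¹ with hτ₀
  have hW : IsOpen {g : Pool.Agent.W401.Cheb.GK K | (τ₀ * g)⁻¹ ∈ O} :=
    hO.preimage (by fun_prop)
  have h1W : (1 : Pool.Agent.W401.Cheb.GK K) ∈ {g : Pool.Agent.W401.Cheb.GK K | (τ₀ * g)⁻¹ ∈ O} := by
    simp [hτ₀, hσ₀]
  obtain ⟨U, hU⟩ := ProfiniteGrp.exist_openNormalSubgroup_sub_open_nhds_of_one hW h1W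
  have hUo : IsOpen (U.toSubgroup : Set (Pool.Agent.W401.Cheb.GK K)) := U.isOpen'
  haveI : U.toSubgroup.Normal := U.isNormal'
  set C : Set (Pool.Agent.W401.Cheb.GK K) :=
    {τ | ∃ ρ, ∃ u ∈ U.toSubgroup, ρ⁻¹ * τ * ρ = τ₀ * u} with hC
  have key := Pool.Agent.W528.Ord.chebK K U.toSubgroup hUo C ?_ ?_
  rotate_left
  · rintro τ ⟨ρ, u, hu, h⟩ κ
    refine ⟨κ * ρ, u, hu, ?_⟩
    rw [← h]
    group
  · rintro τ ⟨ρ, u, hu, h⟩ w hw
    refine ⟨ρ, u * (ρ⁻¹ * w * ρ), U.toSubgroup.mul_mem hu ?_, ?_⟩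
    · have := Subgroup.Normal.conj_mem (inferInstance : U.toSubgroup.Normal) w hw ρ⁻¹
      simpa using this
    · calc ρ⁻¹ * (τ * w) * ρ = (ρ⁻¹ * τ * ρ) * (ρ⁻¹ * w * ρ) := by group
        _ = τ₀ * (u * (ρ⁻¹ * w * ρ)) := by rw [h, mul_assoc]
  by_contra hcon
  push Not at hcon
  have hsub : ∀ v : HeightOneSpectrum (𝓞 K), (∃ σ ∈ C, IsFrob v σ) → v ∈ T := by
    rintro v ⟨σ, ⟨ρ, u, hu, h⟩, hσ⟩
    by_contra hv
    have h1 := (Pool.Agent.W401.Frob.main K).2.2 v σ ρ⁻¹ hσ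
    rw [inv_inv, h] at h1
    exact hcon v hv _ h1 (hU hu)
  haveI : Finite T := hT
  have h2 : ∀ n : ℕ, dens (fun v : HeightOneSpectrum (𝓞 K) => ∃ σ ∈ C, IsFrob v σ) n ≤
      (Nat.card T : ℝ) / (Nat.primeCounting n : ℝ) := by
    intro n
    unfold dens
    apply div_le_div_of_nonneg_right _ (Nat.cast_nonneg _)
    have h3 : Nat.card {v : HeightOneSpectrum (𝓞 K) // Ideal.absNorm v.asIdeal ≤ n ∧
        ∃ σ ∈ C, IsFrob v σ} ≤ Nat.card T := by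
      apply Nat.card_le_card_of_injective
        (fun v => (⟨v.1, hsub v.1 v.2.2⟩ : T))
      intro v w hvw
      apply Subtype.ext
      exact Subtype.mk.inj hvw
    exact_mod_cast h3
  have h3 : Tendsto (fun n : ℕ => (Nat.card T : ℝ) / (Nat.primeCounting n : ℝ)) atTop (𝓝 0) := by
    apply Tendsto.const_div_atTop
    exact tendsto_natCast_atTop_atTop.comp Nat.tendsto_primeCounting
  have h4 := le_of_tendsto_of_tendsto' key h3 h2
  have hfin : Finite (Pool.Agent.W401.Cheb.GK K ⧸ U.toSubgroup) :=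
    Subgroup.quotient_finite_of_isOpen _ hUo
  have h5 : 0 < ((QuotientGroup.mk : Pool.Agent.W401.Cheb.GK K →
      Pool.Agent.W401.Cheb.GK K ⧸ U.toSubgroup) '' C).ncard := by
    rw [Set.ncard_pos (Set.toFinite _)]
    exact ⟨_, τ₀, ⟨1, 1, U.toSubgroup.one_mem, by simp⟩, rfl⟩
  have h6 : 0 < Nat.card (Pool.Agent.W401.Cheb.GK K ⧸ U.toSubgroup) := Nat.card_pos
  have h7 : (0 : ℝ) < (((QuotientGroup.mk : Pool.Agent.W401.Cheb.GK K →
      Pool.Agent.W401.Cheb.GK K ⧸ U.toSubgroup) '' C).ncard : ℝ) /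
      (Nat.card (Pool.Agent.W401.Cheb.GK K ⧸ U.toSubgroup) : ℝ) := by positivity
  exact absurd h4 (not_le.2 h7)

theorem t : Pool.Agent.Y142.ZO.S_FROB := by
  intro K _ _ O hO hne T hT
  exact frob_core K O hO hne T hT

end Pool.Agent.Y405.ZO
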