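import Pool.Agent.Y142.ZO.Stm

/-!
# Values of quadratic polynomials over the `ℓ`-adic numbers
-/

set_option autoImplicit false

namespace Pool.Agent.Y405.ZO

open Pool.Agent.Y142.ZO

section
variable {p : ℕ} [hp : Fact p.Prime]

theorem one_lt_p : (1 : ℝ) < p := by exact_mod_cast hp.1.one_lt

theorem val_of_norm {x : ℚ_[p]} (hx : x ≠ 0) {n : ℤ} (h : ‖x‖ = (p : ℝ) ^ (-n)) :
    x.valuation = n := by
  rw [Padic.norm_eq_zpow_neg_valuation hx] at h
  have := (zpow_right_strictMono₀ one_lt_p).injective h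
  linarith

theorem one_add {x : ℚ_[p]} (hx : x ≠ 0) (h : x.valuation < 0) :
    1 + x ≠ 0 ∧ (1 + x).valuation = x.valuation := by
  have h1 : 1 < ‖x‖ := by
    rw [Padic.norm_eq_zpow_neg_valuation hx]
    exact one_lt_zpow₀ one_lt_p (by linarith)
  have h2 : ‖1 + x‖ = ‖x‖ := by
    rw [Padic.add_eq_max_of_ne (by rw [norm_one]; exact h1.ne), norm_one, max_eq_right h1.le]
  have h3 : 1 + x ≠ 0 := by
    intro h0
    rw [h0, norm_zero] at h2
    linarith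
  refine ⟨h3, val_of_norm h3 ?_⟩
  rw [h2, Padic.norm_eq_zpow_neg_valuation hx]

theorem pne : (p : ℚ_[p]) ≠ 0 := by exact_mod_cast hp.1.ne_zero

theorem caseA {β : ℚ_[p]} (hβ : β ≠ 0) (h : Odd β.valuation) :
    ∃ s : ℚ_[p], 1 + β * s ^ 2 ≠ 0 ∧ Odd (1 + β * s ^ 2).valuation := by
  set k : ℤ := |β.valuation| + 1 with hk
  have hs : (p : ℚ_[p]) ^ (-k) ≠ 0 := zpow_ne_zero _ pne
  have hx : β * ((p : ℚ_[p]) ^ (-k)) ^ 2 ≠ 0 := mul_ne_zero hβ (pow_ne_zero _ hs)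
  have hv : (β * ((p : ℚ_[p]) ^ (-k)) ^ 2).valuation = β.valuation - 2 * k := by
    rw [Padic.valuation_mul hβ (pow_ne_zero _ hs), Padic.valuation_pow, Padic.valuation_zpow,
      Padic.valuation_p]
    push_cast
    ring
  have hlt : (β * ((p : ℚ_[p]) ^ (-k)) ^ 2).valuation < 0 := by
    rw [hv]
    have := le_abs_self β.valuation
    have := abs_nonneg β.valuation
    linarith
  obtain ⟨h1, h2⟩ := one_add hx hlt
  refine ⟨_, h1, ?_⟩
  rw [h2, hv]
  exact h.sub_even (even_two_mul k)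

theorem norm_lt_one_iff (x : ℤ_[p]) : ‖x‖ < 1 ↔ PadicInt.toZMod x = 0 := by
  rw [← RingHom.mem_ker, PadicInt.ker_toZMod, IsLocalRing.mem_maximalIdeal, PadicInt.mem_nonunits]

theorem shift (hp2 : p ≠ 2) {x u s : ℚ_[p]} (hx : ‖x‖ < (p : ℝ)⁻¹) (hu : ‖u‖ = 1) (hs : ‖s‖ = 1) :
    ‖x + u * ((s + p) ^ 2 - s ^ 2)‖ = (p : ℝ)⁻¹ := by
  have h2 : ‖(2 : ℚ_[p])‖ = 1 := by
    have h := Padic.norm_intCast_lt_one_iff (p := p) (k := 2)
    have h3 : ¬ ((p : ℤ) ∣ 2) := by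
      intro hd
      have : p ∣ 2 := by exact_mod_cast hd
      exact hp2 ((Nat.prime_dvd_prime_iff_eq hp.1 Nat.prime_two).1 this)
    have h4 : ¬ ‖((2 : ℤ) : ℚ_[p])‖ < 1 := fun hh => h3 (h.1 hh)
    have h5 := Padic.norm_int_le_one (p := p) 2
    push_cast at h4 h5
    exact le_antisymm h5 (not_lt.1 h4)
  have h3 : ‖2 * s + (p : ℚ_[p])‖ = 1 := by
    have h4 : ‖2 * s‖ = 1 := by rw [norm_mul, h2, hs, mul_one]
    have h5 : ‖(p : ℚ_[p])‖ < 1 := Padic.norm_p_lt_one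
    rw [Padic.add_eq_max_of_ne (by rw [h4]; exact h5.ne'), h4, max_eq_left h5.le]
  have h6 : ‖u * ((s + p) ^ 2 - s ^ 2)‖ = (p : ℝ)⁻¹ := by
    have : u * ((s + p) ^ 2 - s ^ 2) = u * (p * (2 * s + p)) := by ring
    rw [this, norm_mul, norm_mul, hu, h3, Padic.norm_p]
    ring
  rw [Padic.add_eq_max_of_ne (by rw [h6]; exact hx.ne), h6, max_eq_right hx.le]

theorem units (hp2 : p ≠ 2) {u v : ℚ_[p]} (hu : ‖u‖ = 1) (hv : ‖v‖ = 1) :
    ∃ s t : ℚ_[p], ‖1 + u * s ^ 2 + v * t ^ 2‖ = (p : ℝ)⁻¹ := by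
  set U : ℤ_[p] := ⟨u, hu.le⟩ with hU
  set V : ℤ_[p] := ⟨v, hv.le⟩ with hV
  have hU0 : PadicInt.toZMod U ≠ 0 := by
    intro h
    have := (norm_lt_one_iff U).2 h
    rw [PadicInt.norm_def] at this
    simp only [hU] at this
    linarith
  have hV0 : PadicInt.toZMod V ≠ 0 := by
    intro h
    have := (norm_lt_one_iff V).2 h
    rw [PadicInt.norm_def] at this
    simp only [hV] at this
    linarith
  obtain ⟨a, b, hab⟩ := FiniteField.exists_root_sum_quadratic (R := ZMod p)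
    (Polynomial.degree_quadratic (b := 0) (c := 1) hU0)
    (Polynomial.degree_quadratic (b := 0) (c := 0) hV0)
    (by
      rw [ZMod.card]
      exact hp.1.eq_two_or_odd.resolve_left hp2)
  obtain ⟨S, hS⟩ := ZMod.ringHom_surjective (PadicInt.toZMod : ℤ_[p] →+* ZMod p) a
  obtain ⟨T, hT⟩ := ZMod.ringHom_surjective (PadicInt.toZMod : ℤ_[p] →+* ZMod p) b
  have hz : PadicInt.toZMod (1 + U * S ^ 2 + V * T ^ 2) = 0 := by
    simp only [Polynomial.eval_add, Polynomial.eval_mul, Polynomial.eval_pow, Polynomial.eval_C,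
      Polynomial.eval_X] at hab
    simp only [map_add, map_mul, map_pow, map_one, hS, hT]
    linear_combination hab
  have hlt := (norm_lt_one_iff _).2 hz
  rw [PadicInt.norm_def] at hlt
  have hcoe : ((1 + U * S ^ 2 + V * T ^ 2 : ℤ_[p]) : ℚ_[p]) =
      1 + u * (S : ℚ_[p]) ^ 2 + v * (T : ℚ_[p]) ^ 2 := by
    push_cast
    rfl
  rw [hcoe] at hlt
  have hle : ‖1 + u * (S : ℚ_[p]) ^ 2 + v * (T : ℚ_[p]) ^ 2‖ ≤ (p : ℝ)⁻¹ := by
    have := (Padic.norm_le_pow_iff_norm_lt_pow_add_one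
      (1 + u * (S : ℚ_[p]) ^ 2 + v * (T : ℚ_[p]) ^ 2) (-1)).2 (by simpa using hlt)
    simpa using this
  rcases hle.lt_or_eq with h | h
  · have hor : ‖(S : ℚ_[p])‖ = 1 ∨ ‖(T : ℚ_[p])‖ = 1 := by
      by_contra hcon
      push Not at hcon
      have h1 : ‖S‖ < 1 := lt_of_le_of_ne (PadicInt.norm_le_one S) (by
        rw [PadicInt.norm_def]; exact hcon.1)
      have h2 : ‖T‖ < 1 := lt_of_le_of_ne (PadicInt.norm_le_one T) (by
        rw [PadicInt.norm_def]; exact hcon.2)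
      rw [norm_lt_one_iff] at h1 h2
      simp only [map_add, map_mul, map_pow, map_one, h1, h2] at hz
      norm_num at hz
    rcases hor with h1 | h1
    · refine ⟨(S : ℚ_[p]) + p, T, ?_⟩
      have := shift hp2 h hu h1
      rw [← this]
      congr 1
      ring
    · refine ⟨S, (T : ℚ_[p]) + p, ?_⟩
      have := shift hp2 h hv h1
      rw [← this]
      congr 1
      ring
  · exact ⟨_, _, h⟩

theorem unit_part {β : ℚ_[p]} (hβ : β ≠ 0) (h : Even β.valuation) :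
    ∃ (u : ℚ_[p]) (c : ℚ_[p]), ‖u‖ = 1 ∧ β * c ^ 2 = u := by
  obtain ⟨k, hk⟩ := h
  have hs : (p : ℚ_[p]) ^ (-k) ≠ 0 := zpow_ne_zero _ pne
  have hx : β * ((p : ℚ_[p]) ^ (-k)) ^ 2 ≠ 0 := mul_ne_zero hβ (pow_ne_zero _ hs)
  refine ⟨β * ((p : ℚ_[p]) ^ (-k)) ^ 2, _, ?_, rfl⟩
  rw [Padic.norm_eq_zpow_neg_valuation hx, Padic.valuation_mul hβ (pow_ne_zero _ hs),
    Padic.valuation_pow, Padic.valuation_zpow, Padic.valuation_p, hk]
  have : -(k + k + ((2 : ℕ) : ℤ) * (-k * 1)) = 0 := by push_cast; ring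
  rw [this, zpow_zero]

end

theorem t1 : S_VAL := by
  intro p hp hp2 β₁ β₂ h1 h2
  by_cases o1 : Odd β₁.valuation
  · obtain ⟨s, hs1, hs2⟩ := caseA h1 o1
    exact ⟨s, 0, by simpa using hs1, by simpa using hs2⟩
  by_cases o2 : Odd β₂.valuation
  · obtain ⟨s, hs1, hs2⟩ := caseA h2 o2
    exact ⟨0, s, by simpa using hs1, by simpa using hs2⟩
  rw [Int.not_odd_iff_even] at o1 o2
  obtain ⟨u, c, hu, huc⟩ := unit_part h1 o1
  obtain ⟨v, d, hv, hvd⟩ := unit_part h2 o2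
  obtain ⟨s, t, hst⟩ := units hp2 hu hv
  have he : 1 + β₁ * (c * s) ^ 2 + β₂ * (d * t) ^ 2 = 1 + u * s ^ 2 + v * t ^ 2 := by
    rw [← huc, ← hvd]
    ring
  refine ⟨c * s, d * t, ?_⟩
  rw [he]
  have hne : 1 + u * s ^ 2 + v * t ^ 2 ≠ 0 := by
    intro h0
    rw [h0, norm_zero] at hst
    have : (0 : ℝ) < (p : ℝ)⁻¹ := inv_pos.2 (by exact_mod_cast hp.1.pos)
    linarith
  refine ⟨hne, ?_⟩
  have hv1 : (1 + u * s ^ 2 + v * t ^ 2).valuation = 1 := val_of_norm hne (by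
    rw [hst, zpow_neg, zpow_one])
  rw [hv1]
  exact odd_one

section
variable {p : ℕ} [hp : Fact p.Prime]

theorem hensel {x : ℤ_[p]} (hx : ‖x‖ < ‖(2 : ℤ_[p])‖ ^ 2) : IsSquare (1 + x) := by
  obtain ⟨z, hz, -⟩ := hensels_lemma (p := p) (R := ℤ_[p])
    (F := Polynomial.X ^ 2 - Polynomial.C (1 + x)) (a := (1 : ℤ_[p])) (by
      have h1 : (1 : ℤ_[p]) + 1 = 2 := one_add_one_eq_two
      simpa [Polynomial.derivative_X_pow, h1] using hx)
  refine ⟨z, ?_⟩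
  simp only [map_sub, map_pow, Polynomial.aeval_X, Polynomial.aeval_C] at hz
  simp only [Algebra.algebraMap_self, RingHom.id_apply] at hz
  linear_combination -hz

end

theorem t2 : S_VAL2 := by
  intro p hp β hβ
  by_contra hcon
  push Not at hcon
  have hall : ∀ s : ℚ_[p], IsSquare (1 + β * s ^ 2) := by
    intro s
    by_cases h : 1 + β * s ^ 2 = 0
    · rw [h]
      exact ⟨0, by ring⟩
    · exact hcon s h
  -- `β` is a square
  have hβsq : IsSquare β := by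
    have hlim : Filter.Tendsto (fun n : ℕ => ‖((p : ℚ_[p]) ^ n) ^ 2 / β‖) Filter.atTop (nhds 0) := by
      have h1 : Filter.Tendsto (fun n : ℕ => (‖(p : ℚ_[p])‖ ^ 2) ^ n / ‖β‖) Filter.atTop
          (nhds (0 / ‖β‖)) := by
        refine (tendsto_pow_atTop_nhds_zero_of_lt_one (by positivity) ?_).div_const _
        have h5 : ‖(p : ℚ_[p])‖ < 1 := Padic.norm_p_lt_one
        nlinarith [norm_nonneg (p : ℚ_[p])]
      rw [zero_div] at h1
      refine h1.congr fun n => ?_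
      rw [norm_div, norm_pow, norm_pow, ← pow_mul, ← pow_mul, mul_comm]
    have h2pos : 0 < ‖(2 : ℤ_[p])‖ ^ 2 := by
      have : (2 : ℤ_[p]) ≠ 0 := two_ne_zero
      positivity
    have hev : ∀ᶠ n : ℕ in Filter.atTop, ‖((p : ℚ_[p]) ^ n) ^ 2 / β‖ < ‖(2 : ℤ_[p])‖ ^ 2 :=
      hlim.eventually (gt_mem_nhds h2pos)
    have hev1 : ∀ᶠ n : ℕ in Filter.atTop, ‖((p : ℚ_[p]) ^ n) ^ 2 / β‖ < 1 :=
      hlim.eventually (gt_mem_nhds one_pos)
    obtain ⟨n, hn, hn1⟩ := (hev.and hev1).exists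
    have hpn : (p : ℚ_[p]) ^ n ≠ 0 := pow_ne_zero _ pne
    obtain ⟨w, hw⟩ := hall (((p : ℚ_[p]) ^ n)⁻¹)
    obtain ⟨z, hz⟩ := hensel (x := (⟨((p : ℚ_[p]) ^ n) ^ 2 / β, hn1.le⟩ : ℤ_[p])) (by
      rw [PadicInt.norm_def]
      exact hn)
    have hz' : 1 + ((p : ℚ_[p]) ^ n) ^ 2 / β = (z : ℚ_[p]) * z := by
      have := congrArg (fun y : ℤ_[p] => (y : ℚ_[p])) hz
      push_cast at this
      exact this
    have hz0 : (z : ℚ_[p]) ≠ 0 := by
      intro h0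
      rw [h0, mul_zero] at hz'
      have h3 : ((p : ℚ_[p]) ^ n) ^ 2 / β = -1 := by linear_combination hz'
      rw [h3, norm_neg, norm_one] at hn1
      exact lt_irrefl _ hn1
    refine ⟨(p : ℚ_[p]) ^ n * w / z, ?_⟩
    field_simp at hw hz' ⊢
    linear_combination hw - hz'
  obtain ⟨c, hc⟩ := hβsq
  have hc0 : c ≠ 0 := by
    rintro rfl
    exact hβ (by rw [hc, mul_zero])
  have hone : ∀ u : ℚ_[p], IsSquare (1 + u ^ 2) := by
    intro u
    have := hall (u / c)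
    rw [hc] at this
    have he : 1 + c * c * (u / c) ^ 2 = 1 + u ^ 2 := by
      field_simp
    rwa [he] at this
  have hnat : ∀ n : ℕ, IsSquare ((n : ℚ_[p]) + 1) := by
    intro n
    induction n with
    | zero => exact ⟨1, by simp⟩
    | succ n ih =>
      obtain ⟨w, hw⟩ := ih
      have := hone w
      have he : 1 + w ^ 2 = ((n + 1 : ℕ) : ℚ_[p]) + 1 := by
        push_cast
        rw [hw]
        ring
      rwa [he] at this
  obtain ⟨w, hw⟩ := hnat (p - 1)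
  have hw' : (p : ℚ_[p]) = w * w := by
    rw [← hw]
    have := hp.1.one_le
    push_cast [Nat.cast_sub this]
    ring
  have hw0 : w ≠ 0 := by
    rintro rfl
    rw [mul_zero] at hw'
    exact pne hw'
  have hval := congrArg Padic.valuation hw'
  rw [Padic.valuation_p, Padic.valuation_mul hw0 hw0] at hval
  omega

end Pool.Agent.Y405.ZO
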